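import Mathlib

namespace Pool.Agent.Results.MP_70eb0a_al.Counter

open Function

/-- `ℤ_(p)`: the rationals whose denominator is prime to `p`. -/
def Zp (p : ℕ) [hp : Fact p.Prime] : Subring ℚ where
  carrier := {q | ¬ p ∣ q.den}
  zero_mem' := by simpa using hp.out.ne_one
  one_mem' := by simpa using hp.out.ne_one
  add_mem' := fun {a b} ha hb h =>
    ((Nat.Prime.dvd_mul hp.out).1 (h.trans (Rat.add_den_dvd a b))).elim ha hb
  mul_mem' := fun {a b} ha hb h =>
    ((Nat.Prime.dvd_mul hp.out).1 (h.trans (Rat.mul_den_dvd a b))).elim ha hb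
  neg_mem' := fun {a} ha => by simpa using ha

/-- `R/J(R)` is semisimple (Artinian) and idempotents lift modulo `J(R)`. -/
def Semiperfect (R : Type) [Ring R] : Prop :=
  IsSemisimpleRing (R ⧸ Ring.jacobson R) ∧
    ∀ x : R, x * x - x ∈ Ring.jacobson R → ∃ e : R, IsIdempotentElem e ∧ e - x ∈ Ring.jacobson R

/-- Finitely generated left `R`-modules. -/
def FG (R : Type) [Ring R] : Type 1 := {M : ModuleCat.{0} R // Module.Finite R M}

/-- The relations `[B] - [A] - [C]` for short exact sequences `0 → A → B → C → 0`. -/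
def rels (R : Type) [Ring R] : Set (FreeAbelianGroup (FG R)) :=
  {x | ∃ (A B C : FG R) (f : A.1 →ₗ[R] B.1) (g : B.1 →ₗ[R] C.1), Injective f ∧ Surjective g ∧
    Function.Exact f g ∧
      x = FreeAbelianGroup.of B - FreeAbelianGroup.of A - FreeAbelianGroup.of C}

/-- The class `[M]` in the Grothendieck group `G₀(R)`. -/
def cls {R : Type} [Ring R] (M : FG R) :
    FreeAbelianGroup (FG R) ⧸ AddSubgroup.closure (rels R) :=
  QuotientAddGroup.mk (FreeAbelianGroup.of M)

/-- `ρ` is irreducible, i.e. `V` is a simple `ℚG`-module. -/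
def Irr {G V : Type} [Group G] [AddCommGroup V] [Module ℚ V] (ρ : Representation ℚ G V) : Prop :=
  Nontrivial V ∧ ∀ W : Submodule ℚ V, (∀ g, ∀ x ∈ W, ρ g x ∈ W) → W = ⊥ ∨ W = ⊤

/-- `L` is `G`-stable, finitely generated over the subring `S` of `ℚ`, and spans `V` over `ℚ`. -/
def IsLat {G V : Type} [AddCommGroup V] [Module ℚ V] (act : G → V → V) (S : Subring ℚ)
    (L : Submodule S V) : Prop :=
  (∀ g, ∀ x ∈ L, act g x ∈ L) ∧ L.FG ∧ Submodule.span ℚ (L : Set V) = ⊤

/-- `M ≅ L/pL` equivariantly: there is an additive surjection `L → M` with kernel `pL` carrying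
the action `act g` (restricted along the inclusion `ι : L → V`) to multiplication by `s g`. -/
def IsQuot {G V R : Type} [Ring R] (p : ℕ) (act : G → V → V) (s : G → R) (L : Type)
    [AddCommGroup L] (ι : L → V) (M : FG R) : Prop :=
  ∃ π : L →+ M.1, Surjective π ∧ (∀ x : L, π x = 0 ↔ ∃ y : L, x = p • y) ∧
    ∀ (g : G) (x y : L), ι y = act g (ι x) → π y = s g • π x

/-- `M ≅ L/pL` for a simple `ℚG`-module `V` and a `G`-stable finitely generated
`ℤ_(p)`-submodule `L` of `V` spanning `V` over `ℚ`. -/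
def IsRed (p : ℕ) [Fact p.Prime] (G : Type) [Group G] (M : FG (MonoidAlgebra (ZMod p) G)) :
    Prop :=
  ∃ (V : Type) (_ : AddCommGroup V) (_ : Module ℚ V) (ρ : Representation ℚ G V)
    (L : Submodule (Zp p) V), Irr ρ ∧ IsLat (fun g x => ρ g x) (Zp p) L ∧
    IsQuot p (fun g x => ρ g x) (fun g => MonoidAlgebra.single g 1) L Subtype.val M

/-- `P` is projective and indecomposable. -/
def IsPIM {R : Type} [Ring R] (P : FG R) : Prop :=
  Module.Projective R P.1 ∧ Nontrivial P.1 ∧
    ∀ A B : Submodule R P.1, IsCompl A B → A = ⊥ ∨ B = ⊥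

/-- `[P]` is a finite sum (repetitions allowed) of classes of modules from `X` in `G₀(R)`. -/
def SumOf {R : Type} [Ring R] (X : FG R → Prop) (P : FG R) : Prop :=
  ∃ l : List (FG R), (∀ M ∈ l, X M) ∧ cls P = (l.map cls).sum

/-- Condition (N). -/
def CondN (p : ℕ) [Fact p.Prime] (G : Type) [Group G] : Prop :=
  ∀ P : FG (MonoidAlgebra (ZMod p) G), IsPIM P → SumOf (IsRed p G) P

lemma den_ne (c : Zp 2) : ((c : ℚ).den : ZMod 2) ≠ 0 := by
  rw [Ne, ZMod.natCast_eq_zero_iff]; exact c.2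

/-- reduction mod 2 -/
def red : Zp 2 →+ ZMod 2 where
  toFun c := ((c : ℚ) : ZMod 2)
  map_zero' := by simp
  map_add' a b := Rat.cast_add_of_ne_zero (den_ne a) (den_ne b)

lemma red_one : red 1 = 1 := by simp [red]

lemma red_two (c : Zp 2) : red (c + c) = 0 := by
  rw [map_add]; generalize red c = t; revert t; decide

lemma red_num (c : Zp 2) : red c = 0 ↔ (2 : ℤ) ∣ (c : ℚ).num := by
  have : red c = ((c : ℚ).num : ZMod 2) / ((c : ℚ).den : ZMod 2) := Rat.cast_def _
  rw [this, div_eq_zero_iff, or_iff_left (den_ne c)]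
  exact ZMod.intCast_zmod_eq_zero_iff_dvd _ 2

lemma red_eq_zero {c : Zp 2} (h : red c = 0) : ∃ d : Zp 2, c = d + d := by
  obtain ⟨k, hk⟩ := (red_num c).1 h
  refine ⟨⟨Rat.divInt k (c : ℚ).den, fun h2 => c.2 ?_⟩, Subtype.ext ?_⟩
  · have := Rat.den_dvd k ((c : ℚ).den : ℤ)
    exact h2.trans (Int.natCast_dvd_natCast.1 this)
  · change (c : ℚ) = Rat.divInt k (c : ℚ).den + Rat.divInt k (c : ℚ).den
    rw [Rat.divInt_eq_div]
    conv_lhs => rw [← Rat.num_div_den (c : ℚ), hk]
    push_cast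
    ring

lemma two_jac : Ideal.span {(2 : Zp 2)} ≤ Ideal.jacobson ⊥ := by
  rw [Ideal.span_singleton_le_iff_mem, Ideal.mem_jacobson_bot]
  intro y
  have h1 : red (2 * y + 1) ≠ 0 := by rw [two_mul, map_add, red_two, red_one]; decide
  have h0 : ((2 * y + 1 : Zp 2) : ℚ) ≠ 0 := by
    intro h
    apply h1
    rw [show (2 * y + 1 : Zp 2) = 0 from Subtype.ext h, map_zero]
  have h2 : ((2 * y + 1 : Zp 2) : ℚ)⁻¹ ∈ Zp 2 := by
    intro h
    apply h1
    rw [Rat.den_inv_of_ne_zero h0] at h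
    exact (red_num _).2 (Int.natCast_dvd.2 h)
  exact IsUnit.of_mul_eq_one ⟨_, h2⟩ (Subtype.ext (mul_inv_cancel₀ h0))

abbrev D := QuaternionGroup 3

abbrev R0 := MonoidAlgebra (Zp 2) D

lemma two_mem (r : R0) : r + r ∈ Ring.jacobson R0 := by
  rw [← Ideal.jacobson_bot, Ideal.mem_jacobson_iff]
  intro y
  let N : Submodule (Zp 2) R0 := LinearMap.range (LinearMap.mulRight (Zp 2) (y * (r + r) + 1))
  have hN : (⊤ : Submodule (Zp 2) R0) ≤ N ⊔ Ideal.span {(2 : Zp 2)} • ⊤ := by
    intro w _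
    have : w = w * (y * (r + r) + 1) + (2 : Zp 2) • (-(w * y * r)) := by
      rw [two_smul]; noncomm_ring
    rw [this]
    exact Submodule.add_mem_sup ⟨w, rfl⟩
      (Submodule.smul_mem_smul (Ideal.mem_span_singleton_self _) trivial)
  obtain ⟨z, hz⟩ := Submodule.le_of_le_smul_of_le_jacobson_bot Module.Finite.fg_top two_jac hN
    (Submodule.mem_top (x := (1 : R0)))
  refine ⟨z, ?_⟩
  have hz : z * (y * (r + r) + 1) = 1 := hz
  rw [Ideal.mem_bot, sub_eq_zero, ← hz]
  noncomm_ring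

def qz : D → ℤ × ℤ × ℤ × ℤ
  | .a i => ![(1, 0, 0, 0), (1, 1, 0, 0), (0, 1, 0, 0), (-1, 0, 0, 0), (-1, -1, 0, 0),
      (0, -1, 0, 0)] i
  | .xa i => ![(0, 0, 1, 0), (0, 0, 0, -1), (0, 0, -1, -1), (0, 0, -1, 0), (0, 0, 0, 1),
      (0, 0, 1, 1)] i

def mz (a b : ℤ × ℤ × ℤ × ℤ) : ℤ × ℤ × ℤ × ℤ :=
  (a.1 * b.1 - a.2.1 * b.2.1 - a.2.2.1 * b.2.2.1 + a.2.2.1 * b.2.2.2 - a.2.2.2 * b.2.2.2,
   a.1 * b.2.1 + a.2.1 * b.1 - a.2.1 * b.2.1 + a.2.2.1 * b.2.2.2 - a.2.2.2 * b.2.2.1,
   a.1 * b.2.2.1 - a.2.1 * b.2.2.2 + a.2.2.1 * b.1 - a.2.2.1 * b.2.1 + a.2.2.2 * b.2.1,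
   a.1 * b.2.2.2 + a.2.1 * b.2.2.1 - a.2.1 * b.2.2.2 - a.2.2.1 * b.2.1 + a.2.2.2 * b.1)

lemma qz_mul : ∀ g h : D, qz (g * h) = mz (qz g) (qz h) := by decide

abbrev H := QuaternionAlgebra (Zp 2) (-1) (-1) (-1)

def io (a : ℤ × ℤ × ℤ × ℤ) : H := ⟨a.1, a.2.1, a.2.2.1, a.2.2.2⟩

def fq : D →* H where
  toFun g := io (qz g)
  map_one' := by
    have : qz 1 = (1, 0, 0, 0) := by decide
    rw [this]; ext <;> simp [io]
  map_mul' g h := by
    rw [qz_mul]
    apply QuaternionAlgebra.ext <;> simp [io, mz] <;> ring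

def nm (q : H) : Zp 2 := q.re ^ 2 - q.re * q.imI + q.imI ^ 2 + q.imJ ^ 2 - q.imJ * q.imK + q.imK ^ 2

lemma nm_mul (p q : H) : nm (p * q) = nm p * nm q := by
  simp [nm]; ring

lemma idem {q : H} (h : q * q = q) : q = 0 ∨ q = 1 := by
  have h1 := congrArg (fun t : H => (t.re : ℚ)) h
  have h2 := congrArg (fun t : H => (t.imI : ℚ)) h
  have h3 := congrArg (fun t : H => (t.imJ : ℚ)) h
  have h4 := congrArg (fun t : H => (t.imK : ℚ)) h
  obtain ⟨⟨a, ha⟩, ⟨b, hb⟩, ⟨c, hc⟩, ⟨d, hd⟩⟩ := q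
  simp at h1 h2 h3 h4
  by_cases ht : 2 * a - b - 1 = 0
  · exfalso
    have hb' : b = 2 * a - 1 := by linarith
    subst hb'
    nlinarith [sq_nonneg (2 * a - 1), sq_nonneg (c - d), sq_nonneg c, sq_nonneg d]
  · have hb0 : b = 0 := by
      apply (mul_eq_zero.1 (show b * (2 * a - b - 1) = 0 by linarith)).resolve_right ht
    have hc0 : c = 0 := by
      apply (mul_eq_zero.1 (show c * (2 * a - b - 1) = 0 by linarith)).resolve_right ht
    have hd0 : d = 0 := by
      apply (mul_eq_zero.1 (show d * (2 * a - b - 1) = 0 by linarith)).resolve_right ht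
    subst hb0 hc0 hd0
    rcases mul_eq_zero.1 (show a * (a - 1) = 0 by linarith) with h5 | h5
    · left; subst h5; rfl
    · right
      obtain rfl : a = 1 := by linarith
      rfl

noncomputable def s (g : D) : R0 := MonoidAlgebra.single g 1

lemma s_mul (g h k : D) (e : g * h = k) : s g * s h = s k := by
  simp [s, MonoidAlgebra.single_mul_single, e]

open QuaternionGroup in
lemma not_sp : ¬ Semiperfect R0 := by
  rintro ⟨-, h⟩
  let x : R0 := s (a 1) + s (a 2) + s (a 5) + s (xa 1) + s (xa 5)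
  let r : R0 := s (a 0) + s (a 1) + s (a 3) + s (a 3) + s (a 4) + s (xa 0) + s (xa 0) + s (xa 2) +
    s (xa 3) + s (xa 4)
  have hx : x * x - x = r + r := by
    simp only [x, r, add_mul, mul_add]
    rw [s_mul (a 1) (a 1) (a 2) (by decide),
      s_mul (a 1) (a 2) (a 3) (by decide),
      s_mul (a 1) (a 5) (a 0) (by decide),
      s_mul (a 1) (xa 1) (xa 0) (by decide),
      s_mul (a 1) (xa 5) (xa 4) (by decide),
      s_mul (a 2) (a 1) (a 3) (by decide),
      s_mul (a 2) (a 2) (a 4) (by decide),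
      s_mul (a 2) (a 5) (a 1) (by decide),
      s_mul (a 2) (xa 1) (xa 5) (by decide),
      s_mul (a 2) (xa 5) (xa 3) (by decide),
      s_mul (a 5) (a 1) (a 0) (by decide),
      s_mul (a 5) (a 2) (a 1) (by decide),
      s_mul (a 5) (a 5) (a 4) (by decide),
      s_mul (a 5) (xa 1) (xa 2) (by decide),
      s_mul (a 5) (xa 5) (xa 0) (by decide),
      s_mul (xa 1) (a 1) (xa 2) (by decide),
      s_mul (xa 1) (a 2) (xa 3) (by decide),
      s_mul (xa 1) (a 5) (xa 0) (by decide),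
      s_mul (xa 1) (xa 1) (a 3) (by decide),
      s_mul (xa 1) (xa 5) (a 1) (by decide),
      s_mul (xa 5) (a 1) (xa 0) (by decide),
      s_mul (xa 5) (a 2) (xa 1) (by decide),
      s_mul (xa 5) (a 5) (xa 4) (by decide),
      s_mul (xa 5) (xa 1) (a 5) (by decide),
      s_mul (xa 5) (xa 5) (a 3) (by decide)]
    abel
  obtain ⟨e, he, hj⟩ := h x (hx ▸ two_mem r)
  let ψ : R0 →ₐ[Zp 2] H := MonoidAlgebra.lift (Zp 2) H D fq
  have hψ : ψ x = ⟨1, 1, 1, 0⟩ := by
    have hs : ∀ g, ψ (s g) = io (qz g) := fun g => by simp [ψ, s, fq]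
    simp only [x, map_add, hs]
    rw [show qz (a 1) = (1, 1, 0, 0) by decide, show qz (a 2) = (0, 1, 0, 0) by decide,
      show qz (a 5) = (0, -1, 0, 0) by decide, show qz (xa 1) = (0, 0, 0, -1) by decide,
      show qz (xa 5) = (0, 0, 1, 1) by decide]
    apply QuaternionAlgebra.ext <;> simp [io]
  have fin : ∀ (z u : H), nm u = 2 → z * u ≠ 1 := by
    intro z u hu hz
    have h1 := congrArg nm hz
    rw [nm_mul, hu, mul_two] at h1
    have h2 := red_two (nm z)
    rw [h1, show nm 1 = 1 by simp [nm], red_one] at h2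
    exact absurd h2 (by decide)
  rw [← Ideal.jacobson_bot, Ideal.mem_jacobson_iff] at hj
  have hidem : ψ e * ψ e = ψ e := by rw [← map_mul, he.eq]
  rcases idem hidem with h0 | h0
  · obtain ⟨z, hz⟩ := hj 1
    rw [Ideal.mem_bot, sub_eq_zero] at hz
    have := congrArg ψ hz
    simp only [map_add, map_mul, map_sub, map_one, h0] at this
    refine fin (ψ z) (1 - ψ x) ?_ (Eq.trans (by noncomm_ring) this)
    rw [hψ]; simp [nm]; norm_num
  · obtain ⟨z, hz⟩ := hj (-1)
    rw [Ideal.mem_bot, sub_eq_zero] at hz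
    have := congrArg ψ hz
    simp only [map_add, map_mul, map_sub, map_one, map_neg, h0] at this
    refine fin (ψ z) (ψ x) ?_ (Eq.trans (by noncomm_ring) this)
    rw [hψ]; simp [nm]; norm_num

abbrev R2 := MonoidAlgebra (ZMod 2) D

section N

variable {M : Type} [AddCommGroup M] [Module R2 M]

noncomputable def t (g : D) : R2 := MonoidAlgebra.single g 1

lemma t_mul (g h k : D) (e : g * h = k) (m : M) : t g • t h • m = t k • m := by
  rw [← mul_smul]; simp [t, MonoidAlgebra.single_mul_single, e]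

lemma t_one (m : M) : t 1 • m = m := one_smul R2 m

lemma two_zero (m : M) : m + m = 0 := by
  have h : (1 + 1 : R2) = 0 := by
    rw [← map_one (algebraMap (ZMod 2) R2), ← map_add, show (1 + 1 : ZMod 2) = 0 by decide,
      map_zero]
  rw [← one_smul R2 m, ← add_smul, h, zero_smul]

noncomputable def ph (m : M) : ZMod 2 →+ M where
  toFun c := algebraMap (ZMod 2) R2 c • m
  map_zero' := by simp
  map_add' a b := by rw [map_add, add_smul]

lemma z2 (c : ZMod 2) : c = 0 ∨ c = 1 := by revert c; decide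

lemma ph_one (m : M) : ph m 1 = m := by
  change algebraMap (ZMod 2) R2 1 • m = m
  rw [map_one, one_smul]

lemma ph_val (m : M) (c : ZMod 2) : ph m c = c.val • m := by
  rcases z2 c with rfl | rfl
  · simp
  · rw [ph_one, show (1 : ZMod 2).val = 1 by decide, one_smul]

noncomputable def rep {n : ℕ} (mat : D →* Matrix (Fin n) (Fin n) ℤ) :
    Representation ℚ D (Fin n → ℚ) :=
  (Matrix.toLinAlgEquiv' (R := ℚ) (n := Fin n)).toRingEquiv.toRingHom.toMonoidHom.comp
    ((Int.castRingHom ℚ).mapMatrix.toMonoidHom.comp mat)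

lemma rep_apply {n : ℕ} (mat : D →* Matrix (Fin n) (Fin n) ℤ) (g : D) (x : Fin n → ℚ)
    (i : Fin n) : rep mat g x i = ∑ j, mat g i j • x j := by
  simp [rep, Matrix.mulVec, dotProduct, Matrix.toLinAlgEquiv'_apply]

def lat (n : ℕ) : Submodule (Zp 2) (Fin n → ℚ) where
  carrier := {x | ∀ j, x j ∈ Zp 2}
  zero_mem' := fun _ => (Zp 2).zero_mem
  add_mem' := fun ha hb j => (Zp 2).add_mem (ha j) (hb j)
  smul_mem' := fun c _ hx j => (Zp 2).mul_mem c.2 (hx j)

lemma single_mem {n : ℕ} (j : Fin n) : (Pi.single j 1 : Fin n → ℚ) ∈ lat n := by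
  intro i
  by_cases h : i = j
  · subst h; simpa using (Zp 2).one_mem
  · simpa [h] using (Zp 2).zero_mem

noncomputable def pi0 {n : ℕ} (w : Fin n → M) : lat n →+ M where
  toFun x := ∑ j, ph (w j) (red ⟨x.1 j, x.2 j⟩)
  map_zero' := by
    refine Finset.sum_eq_zero fun j _ => ?_
    rw [show (⟨((0 : lat n) : Fin n → ℚ) j, (0 : lat n).2 j⟩ : Zp 2) = 0 from rfl, map_zero,
      map_zero]
  map_add' x y := by
    rw [← Finset.sum_add_distrib]
    refine Finset.sum_congr rfl fun j _ => ?_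
    rw [← map_add, ← map_add]
    rfl

lemma gen [Finite M] {n : ℕ} (mat : D →* Matrix (Fin n) (Fin n) ℤ)
    (hirr : Nontrivial (Fin n → ℚ) ∧ ∀ W : Submodule ℚ (Fin n → ℚ),
      (∀ g, ∀ x ∈ W, rep mat g x ∈ W) → W = ⊥ ∨ W = ⊤)
    (w : Fin n → M) (hP : ∀ g j, t g • w j = ∑ i, mat g i j • w i)
    (hind : ∀ c : Fin n → ZMod 2, ∑ j, ph (w j) (c j) = 0 → c = 0) :
    ∃ A : Submodule R2 M, (∀ j, w j ∈ A) ∧
      IsRed 2 D ⟨ModuleCat.of R2 A, Module.Finite.of_finite⟩ := by
  have hL : ∀ g, ∀ x ∈ lat n, rep mat g x ∈ lat n := by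
    intro g x hx i
    rw [rep_apply]
    exact (Zp 2).sum_mem fun j _ => (Zp 2).zsmul_mem (hx j) _
  have heq : ∀ (g : D) (x : lat n), pi0 w ⟨rep mat g x, hL g x x.2⟩ = t g • pi0 w x := by
    intro g x
    have h1 : ∀ i, (⟨rep mat g x i, hL g x x.2 i⟩ : Zp 2) =
        ∑ j, mat g i j • (⟨x.1 j, x.2 j⟩ : Zp 2) := by
      intro i
      apply Subtype.ext
      simp [rep_apply]
    change ∑ i, ph (w i) (red ⟨rep mat g x i, hL g x x.2 i⟩) =
      t g • ∑ j, ph (w j) (red ⟨x.1 j, x.2 j⟩)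
    simp only [h1, map_sum, map_zsmul, Finset.smul_sum]
    rw [Finset.sum_comm]
    refine Finset.sum_congr rfl fun j _ => ?_
    simp only [ph_val]
    rw [smul_comm (t g), hP, Finset.smul_sum]
    exact Finset.sum_congr rfl fun i _ => smul_comm _ _ _
  let A : Submodule R2 M := Submodule.span R2 (Set.range w)
  have hw : ∀ j, w j ∈ A := fun j => Submodule.subset_span ⟨j, rfl⟩
  have hA : ∀ x, pi0 w x ∈ A := fun x => by
    change ∑ j, ph (w j) (red ⟨x.1 j, x.2 j⟩) ∈ A
    exact A.sum_mem fun j _ => A.smul_mem _ (hw j)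
  refine ⟨A, hw, Fin n → ℚ, inferInstance, inferInstance, rep mat, lat n, hirr, ⟨hL, ?_, ?_⟩,
    (pi0 w).codRestrict A.toAddSubgroup hA, ?_, ?_, fun g x y hy => Subtype.ext
      ((congrArg (pi0 w) (Subtype.ext hy : y = ⟨rep mat g x, hL g x x.2⟩)).trans (heq g x))⟩
  · refine Submodule.fg_def.2 ⟨Set.range fun j => Pi.single j 1, Set.finite_range _, ?_⟩
    apply le_antisymm
    · rw [Submodule.span_le]
      rintro _ ⟨j, rfl⟩
      exact single_mem j
    · intro x hx
      have : x = ∑ j, (⟨x j, hx j⟩ : Zp 2) • (Pi.single j 1 : Fin n → ℚ) := by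
        funext i
        simp [Finset.sum_apply, Pi.single_apply, Subring.smul_def]
      rw [this]
      exact Submodule.sum_mem _ fun j _ => Submodule.smul_mem _ _ (Submodule.subset_span ⟨j, rfl⟩)
  · rw [eq_top_iff]
    intro x _
    have : x = ∑ j, x j • (Pi.single j 1 : Fin n → ℚ) := by
      funext i
      simp [Finset.sum_apply, Pi.single_apply]
    rw [this]
    exact Submodule.sum_mem _ fun j _ => Submodule.smul_mem _ _
      (Submodule.subset_span (single_mem j))
  · rintro ⟨m, hm⟩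
    suffices ∃ x, pi0 w x = m by
      obtain ⟨x, hx⟩ := this
      exact ⟨x, Subtype.ext hx⟩
    induction hm using Submodule.span_induction with
    | mem m hm =>
      obtain ⟨j, rfl⟩ := hm
      refine ⟨⟨Pi.single j 1, single_mem j⟩, ?_⟩
      change ∑ i, ph (w i) (red ⟨(Pi.single j 1 : Fin n → ℚ) i, single_mem j i⟩) = w j
      rw [Finset.sum_eq_single j]
      · rw [show (⟨(Pi.single j 1 : Fin n → ℚ) j, single_mem j j⟩ : Zp 2) = 1 from
          Subtype.ext (by simp), red_one, ph_one]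
      · intro i _ hi
        rw [show (⟨(Pi.single j 1 : Fin n → ℚ) i, single_mem j i⟩ : Zp 2) = 0 from
          Subtype.ext (by simp [hi]), map_zero, map_zero]
      · simp
    | zero => exact ⟨0, map_zero _⟩
    | add a b _ _ ha hb =>
      obtain ⟨x, rfl⟩ := ha
      obtain ⟨y, rfl⟩ := hb
      exact ⟨x + y, map_add _ _ _⟩
    | smul r a _ ha =>
      obtain ⟨x, rfl⟩ := ha
      induction r using MonoidAlgebra.induction_on with
      | of g => exact ⟨_, heq g x⟩
      | add r r' h h' =>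
        obtain ⟨y, hy⟩ := h
        obtain ⟨y', hy'⟩ := h'
        exact ⟨y + y', by rw [map_add, hy, hy', add_smul]⟩
      | smul c r h =>
        rcases z2 c with rfl | rfl
        · exact ⟨0, by simp⟩
        · simpa using h
  · intro x
    constructor
    · intro h
      have h1 := hind _ (congrArg Subtype.val h)
      choose d hd using fun j => red_eq_zero (congrFun h1 j)
      refine ⟨⟨fun j => d j, fun j => (d j).2⟩, Subtype.ext (funext fun j => ?_)⟩
      have := congrArg Subtype.val (hd j)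
      rw [two_smul]
      exact this
    · rintro ⟨y, rfl⟩
      apply Subtype.ext
      change pi0 w (2 • y) = 0
      rw [two_smul, map_add, two_zero]

lemma fixX {m : M} (hm : m ≠ 0) (g : D) (hg : t g • t g • m = m) :
    ∃ m', m' ≠ 0 ∧ t g • m' = m' ∧ (m' = m ∨ m' = t g • m + m) := by
  by_cases h : t g • m = m
  · exact ⟨m, hm, h, Or.inl rfl⟩
  · refine ⟨_, fun h' => h ?_, ?_, Or.inr rfl⟩
    · rw [← two_zero m] at h'
      exact add_right_cancel h'
    · rw [smul_add, hg, add_comm]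

open QuaternionGroup

lemma allP {n : ℕ} (mat : D →* Matrix (Fin n) (Fin n) ℤ) (w : Fin n → M)
    (h1 : ∀ j, t (a 2) • w j = ∑ i, mat (a 2) i j • w i)
    (h2 : ∀ j, t (xa 0) • w j = ∑ i, mat (xa 0) i j • w i) (g : D) :
    ∀ j, t g • w j = ∑ i, mat g i j • w i := by
  have mul : ∀ g h : D, (∀ j, t g • w j = ∑ i, mat g i j • w i) →
      (∀ j, t h • w j = ∑ i, mat h i j • w i) →
      ∀ j, t (g * h) • w j = ∑ i, mat (g * h) i j • w i := by
    intro g h hg hh j
    rw [← t_mul g h _ rfl, hh, Finset.smul_sum, map_mul]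
    simp only [smul_comm (t g), hg, Matrix.mul_apply, Finset.sum_smul, Finset.smul_sum]
    rw [Finset.sum_comm]
    refine Finset.sum_congr rfl fun i _ => Finset.sum_congr rfl fun k _ => ?_
    rw [mul_comm, mul_smul]
  have pw : ∀ g : D, (∀ j, t g • w j = ∑ i, mat g i j • w i) → ∀ k : ℕ,
      ∀ j, t (g ^ k) • w j = ∑ i, mat (g ^ k) i j • w i := by
    intro g hg k
    induction k with
    | zero => intro j; simp [t_one, Matrix.one_apply]
    | succ k ih => rw [pow_succ]; exact mul _ _ ih hg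
  have : ∀ g : D, ∃ k : Fin 3, ∃ l : Fin 4, g = a 2 ^ k.1 * xa 0 ^ l.1 := by decide
  obtain ⟨k, l, rfl⟩ := this g
  exact mul _ _ (pw _ h1 _) (pw _ h2 _)

def ms : D → Matrix (Fin 2) (Fin 2) ℤ
  | .a i => ![!![1, 0; 0, 1], !![-1, 1; -1, 0], !![0, -1; 1, -1], !![1, 0; 0, 1],
      !![-1, 1; -1, 0], !![0, -1; 1, -1]] i
  | .xa i => ![!![1, -1; 0, -1], !![0, 1; 1, 0], !![-1, 0; -1, 1], !![1, -1; 0, -1],
      !![0, 1; 1, 0], !![-1, 0; -1, 1]] i

def matS : D →* Matrix (Fin 2) (Fin 2) ℤ where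
  toFun := ms
  map_one' := by decide
  map_mul' := by decide +kernel

lemma matS_b : matS (a 2) = !![0, -1; 1, -1] := by decide
lemma matS_x : matS (xa 0) = !![1, -1; 0, -1] := by decide

lemma exists_red [Finite M] [Nontrivial M] : ∃ A : Submodule R2 M, A ≠ ⊥ ∧
    IsRed 2 D ⟨ModuleCat.of R2 A, Module.Finite.of_finite⟩ := by
  obtain ⟨m0, hm0⟩ := exists_ne (0 : M)
  obtain ⟨m, hm, hz, -⟩ := fixX hm0 (a 3) (by rw [t_mul _ _ 1 (by decide), t_one])
  by_cases hu : m + t (a 2) • m + t (a 4) • m = 0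
  · obtain ⟨v, hv, hx, hv'⟩ := fixX hm (xa 0) (by rw [t_mul _ _ (a 3) (by decide), hz])
    have hu' : v + t (a 2) • v + t (a 4) • v = 0 := by
      rcases hv' with rfl | rfl
      · exact hu
      · have := congrArg (fun y => t (xa 0) • y) hu
        simp only [smul_add, smul_zero] at this ⊢
        rw [t_mul (xa 0) (a 2) (xa 2) (by decide), t_mul (xa 0) (a 4) (xa 4) (by decide)] at this
        rw [t_mul (a 2) (xa 0) (xa 4) (by decide), t_mul (a 4) (xa 0) (xa 2) (by decide)]
        refine Eq.trans ?_ (add_eq_zero_iff_eq_neg.2 (this.trans (neg_eq_zero.2 hu).symm))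
        abel
    have e4 : t (a 4) • v = -v - t (a 2) • v := by rw [← sub_eq_zero, ← hu']; abel
    refine (gen matS ⟨inferInstance, ?_⟩ ![v, t (a 2) • v] (allP _ _ ?_ ?_) ?_).imp
      fun A hA => ⟨fun h => hv (by simpa [h] using hA.1 0), hA.2⟩
    · intro W hW
      by_cases h : W = ⊥
      · exact Or.inl h
      right
      obtain ⟨x, hx, hx0⟩ := (Submodule.ne_bot_iff W).1 h
      have hb := hW (a 2) x hx
      have hD : x 0 ^ 2 - x 0 * x 1 + x 1 ^ 2 ≠ 0 := by
        intro h
        apply hx0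
        have h0 : x 0 = 0 := by nlinarith [sq_nonneg (x 0 - x 1), sq_nonneg (x 0), sq_nonneg (x 1)]
        have h1 : x 1 = 0 := by nlinarith [sq_nonneg (x 0 - x 1), sq_nonneg (x 0), sq_nonneg (x 1)]
        funext i; fin_cases i
        · exact h0
        · exact h1
      rw [eq_top_iff]
      intro y _
      obtain ⟨d, hd⟩ : ∃ d, (x 0 ^ 2 - x 0 * x 1 + x 1 ^ 2) * d = 1 := ⟨_, mul_inv_cancel₀ hD⟩
      have : y = (((x 0 - x 1) * y 0 + x 1 * y 1) * d) • x +
          ((-x 1 * y 0 + x 0 * y 1) * d) • rep matS (a 2) x := by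
        funext i
        fin_cases i
        · simp [rep_apply, matS_b]
          linear_combination (-y 0) * hd
        · simp [rep_apply, matS_b]
          linear_combination (-y 1) * hd
      rw [this]
      exact W.add_mem (W.smul_mem _ hx) (W.smul_mem _ hb)
    · intro j
      fin_cases j
      · simp [matS_b]
      · simp [matS_b, t_mul (a 2) (a 2) (a 4) (by decide), e4, sub_eq_add_neg]
    · intro j
      fin_cases j
      · simp [matS_x, hx]
      · have : t (xa 0) • t (a 2) • v = t (a 4) • v := by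
          rw [t_mul (xa 0) (a 2) (xa 2) (by decide), ← t_mul (a 4) (xa 0) (xa 2) (by decide), hx]
        simp [matS_x, this, e4, sub_eq_add_neg]
    · intro c hc
      rw [Fin.sum_univ_two] at hc
      have k2 : t (a 2) • v ≠ 0 := fun h => hv (by
        rw [← t_one v, ← t_mul (a 4) (a 2) 1 (by decide), h, smul_zero])
      have k4 : t (a 4) • v ≠ 0 := fun h => hv (by
        rw [← t_one v, ← t_mul (a 2) (a 4) 1 (by decide), h, smul_zero])
      rcases z2 (c 0) with h0 | h0 <;> rcases z2 (c 1) with h1 | h1 <;> rw [h0, h1] at hc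
      · funext i; fin_cases i
        · exact h0
        · exact h1
      · exact absurd (by simpa [ph_one] using hc) k2
      · exact absurd (by simpa [ph_one] using hc) hv
      · refine absurd ?_ k4
        have hc' : v + t (a 2) • v = 0 := by simpa [ph_one] using hc
        rw [hc', zero_add] at hu'
        exact hu'
  · set u := m + t (a 2) • m + t (a 4) • m with hud
    have uz : t (a 3) • u = u := by
      rw [hud, smul_add, smul_add, hz, t_mul (a 3) (a 2) (a 5) (by decide),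
        t_mul (a 3) (a 4) (a 1) (by decide), ← t_mul (a 2) (a 3) (a 5) (by decide),
        ← t_mul (a 4) (a 3) (a 1) (by decide), hz]
    have ub : t (a 2) • u = u := by
      rw [hud, smul_add, smul_add, t_mul (a 2) (a 2) (a 4) (by decide),
        t_mul (a 2) (a 4) 1 (by decide), t_one]
      abel
    obtain ⟨v, hv, hx, hv'⟩ := fixX hu (xa 0) (by rw [t_mul _ _ (a 3) (by decide), uz])
    have vb : t (a 2) • v = v := by
      rcases hv' with rfl | rfl
      · exact ub
      · rw [smul_add, ub, t_mul (a 2) (xa 0) (xa 4) (by decide),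
          ← t_mul (xa 0) (a 4) (xa 4) (by decide), ← t_mul (a 2) (a 2) (a 4) (by decide), ub, ub]
    refine (gen (1 : D →* Matrix (Fin 1) (Fin 1) ℤ) ⟨inferInstance, ?_⟩ ![v]
      (allP _ _ ?_ ?_) ?_).imp fun A hA => ⟨fun h => hv (by simpa [h] using hA.1 0), hA.2⟩
    · intro W _
      by_cases h : W = ⊥
      · exact Or.inl h
      right
      obtain ⟨x, hx, hx0⟩ := (Submodule.ne_bot_iff W).1 h
      have h0 : x 0 ≠ 0 := fun h => hx0 (funext fun i => by fin_cases i; exact h)
      rw [eq_top_iff]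
      intro y _
      have : y = (y 0 / x 0) • x := by
        funext i; fin_cases i; simp; field_simp
      rw [this]
      exact W.smul_mem _ hx
    · intro j; fin_cases j; simp [vb]
    · intro j; fin_cases j; simp [hx]
    · intro c hc
      rcases z2 (c 0) with h0 | h0
      · funext i; fin_cases i; exact h0
      · exact absurd (by simpa [h0, ph_one] using hc) hv

end N

lemma cls_add {R : Type} [Ring R] (A B C : FG R) (f : A.1 →ₗ[R] B.1) (g : B.1 →ₗ[R] C.1)
    (hf : Injective f) (hg : Surjective g) (h : Function.Exact f g) :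
    cls B = cls A + cls C := by
  have : ((FreeAbelianGroup.of B - FreeAbelianGroup.of A - FreeAbelianGroup.of C :
      FreeAbelianGroup (FG R)) : FreeAbelianGroup (FG R) ⧸ AddSubgroup.closure (rels R)) = 0 :=
    (QuotientAddGroup.eq_zero_iff _).2 (AddSubgroup.subset_closure ⟨A, B, C, f, g, hf, hg, h, rfl⟩)
  rw [QuotientAddGroup.mk_sub, QuotientAddGroup.mk_sub, sub_sub, sub_eq_zero] at this
  exact this

lemma all_red (n : ℕ) : ∀ P : FG R2, Nat.card P.1 = n →
    ∃ l : List (FG R2), (∀ M ∈ l, IsRed 2 D M) ∧ cls P = (l.map cls).sum := by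
  induction n using Nat.strong_induction_on with
  | _ n ih =>
  intro P hP
  haveI := P.2
  haveI : Finite R2 := Module.finite_of_finite (ZMod 2)
  haveI : Finite P.1 := Module.finite_of_finite R2
  rcases subsingleton_or_nontrivial P.1 with h | h
  · refine ⟨[], by simp, ?_⟩
    have := cls_add P P P 0 0 (fun _ _ _ => Subsingleton.elim _ _)
      (fun _ => ⟨0, Subsingleton.elim _ _⟩)
      (fun y => ⟨fun _ => ⟨0, Subsingleton.elim _ _⟩, fun _ => rfl⟩)
    simpa using this
  · obtain ⟨A, hA, hr⟩ := exists_red (M := P.1)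
    have h1 := Submodule.card_eq_card_quotient_mul_card A
    haveI := Submodule.nontrivial_iff_ne_bot.2 hA
    have h2 : 1 < Nat.card A := Finite.one_lt_card
    haveI : Finite (P.1 ⧸ A) := Finite.of_surjective _ A.mkQ_surjective
    have h3 : 0 < Nat.card (P.1 ⧸ A) := Nat.card_pos
    obtain ⟨l, hl, e⟩ := ih (Nat.card (P.1 ⧸ A)) (by nlinarith)
      ⟨ModuleCat.of R2 (P.1 ⧸ A), Module.Finite.of_finite⟩ rfl
    refine ⟨⟨ModuleCat.of R2 A, Module.Finite.of_finite⟩ :: l, ?_, ?_⟩
    · intro M hM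
      rcases List.mem_cons.1 hM with rfl | hM
      · exact hr
      · exact hl M hM
    · rw [List.map_cons, List.sum_cons, ← e]
      exact cls_add ⟨ModuleCat.of R2 A, Module.Finite.of_finite⟩ P
        ⟨ModuleCat.of R2 (P.1 ⧸ A), Module.Finite.of_finite⟩ A.subtype A.mkQ A.injective_subtype
        A.mkQ_surjective (LinearMap.exact_subtype_mkQ A)

theorem result : CondN 2 (QuaternionGroup 3) ∧
    ¬ Semiperfect (MonoidAlgebra (Zp 2) (QuaternionGroup 3)) :=
  ⟨fun P _ => all_red _ P rfl, not_sp⟩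

end Pool.Agent.Results.MP_70eb0a_al.Counter
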